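import Mathlib

/-!
# An MXS allocation that is not EEF1

Three agents with the same additive valuation over fourteen goods: five goods of value `3` and
nine goods of value `4`.
-/

namespace Pool.Agent.Results.MP_a41a76_co.NotEpistemic

open Finset

/-- The bundle of agent `i` in the allocation `A` (an assignment of every item to an agent). -/
def bundle {n : ℕ} {M : Type} [Fintype M] (A : M → Fin n) (i : Fin n) : Finset M :=
  univ.filter (fun g => A g = i)

/-- Value of a set of items. -/
def val {M : Type} (v : M → ℝ) (S : Finset M) : ℝ := ∑ g ∈ S, v g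

/-- Agent `i` with valuation `v` is EF1-satisfied by `A`. -/
def EF1sat {n : ℕ} {M : Type} [Fintype M] [DecidableEq M] (v : M → ℝ) (i : Fin n)
    (A : M → Fin n) : Prop :=
  ∀ j, j ≠ i → val v (bundle A j) ≤ val v (bundle A i) ∨
    ∃ g ∈ bundle A j, val v ((bundle A j).erase g) ≤ val v (bundle A i)

/-- `A` is EEF1 for agent `i`. -/
def EEF1 {n : ℕ} {M : Type} [Fintype M] [DecidableEq M] (v : M → ℝ) (i : Fin n)
    (A : M → Fin n) : Prop :=
  ∃ B : M → Fin n, bundle B i = bundle A i ∧ EF1sat v i B

/-- Agent `i` with valuation `v` is EFX-satisfied by `B`. -/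
def EFXsat {n : ℕ} {M : Type} [Fintype M] [DecidableEq M] (v : M → ℝ) (i : Fin n)
    (B : M → Fin n) : Prop :=
  ∀ j, j ≠ i → ∀ g ∈ bundle B j, 0 < v g → val v ((bundle B j).erase g) ≤ val v (bundle B i)

/-- `A` is MXS for agent `i`. -/
def MXS {n : ℕ} {M : Type} [Fintype M] [DecidableEq M] (v : M → ℝ) (i : Fin n)
    (A : M → Fin n) : Prop :=
  ∃ B : M → Fin n, EFXsat v i B ∧ val v (bundle B i) ≤ val v (bundle A i)

/-- Item values: five goods of value `3`, nine of value `4`. -/
def w (g : Fin 14) : ℕ := if g.val < 5 then 3 else 4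

/-- The common valuation. -/
def v (g : Fin 14) : ℝ := (w g : ℝ)

/-- The allocation: agent `0` gets the five goods of value `3`, agents `1` and `2` get four and
five goods of value `4`. -/
def A (g : Fin 14) : Fin 3 := if g.val < 5 then 0 else if g.val < 9 then 1 else 2

/-- The EFX partition `{3,4,4,4}`, `{3,3,4,4,4}`, `{3,3,4,4,4}`. -/
def B (g : Fin 14) : Fin 3 :=
  if g.val < 1 then 0 else if g.val < 3 then 1 else if g.val < 5 then 2 else
    if g.val < 8 then 0 else if g.val < 11 then 1 else 2

lemma val_eq (S : Finset (Fin 14)) : val v S = ((∑ g ∈ S, w g : ℕ) : ℝ) := by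
  simp [val, v]

lemma val_le_iff (S T : Finset (Fin 14)) :
    val v S ≤ val v T ↔ ∑ g ∈ S, w g ≤ ∑ g ∈ T, w g := by
  rw [val_eq, val_eq, Nat.cast_le]

lemma mxs (i : Fin 3) : MXS v i A := by
  refine ⟨fun g => Equiv.swap 0 i (B g), ?_, ?_⟩
  · intro j hj g hg _
    rw [val_le_iff]
    clear * - hj hg
    revert i j g
    decide +kernel
  · rw [val_le_iff]
    revert i
    decide +kernel

lemma not_eef1 : ¬ EEF1 v (0 : Fin 3) A := by
  rintro ⟨C, hC, hEF⟩
  have hA0 : ∑ g ∈ bundle A 0, w g = 15 := by decide +kernel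
  have hA : ∀ g : Fin 14, g ∈ bundle A 0 ↔ g.val < 5 := by decide +kernel
  have hmem : ∀ g : Fin 14, C g = 0 ↔ g.val < 5 := by
    intro g
    have h1 : g ∈ bundle C 0 ↔ g ∈ bundle A 0 := by rw [hC]
    have h2 : g ∈ bundle A 0 ↔ g.val < 5 := hA g
    rw [← h2, ← h1]
    simp [bundle]
  -- goods outside the first bundle have value four
  have hw : ∀ j : Fin 3, j ≠ 0 → ∀ S ⊆ bundle C j, ∑ g ∈ S, w g = 4 * S.card := by
    intro j hj S hS
    rw [mul_comm, ← smul_eq_mul, ← Finset.sum_const]
    apply Finset.sum_congr rfl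
    intro g hg
    have h1 : C g = j := by
      have := hS hg
      simpa [bundle] using this
    have h2 : ¬ g.val < 5 := by
      rw [← hmem g, h1]
      exact hj
    simp [w, h2]
  have hsmall : ∀ j : Fin 3, j ≠ 0 → (bundle C j).card ≤ 4 := by
    intro j hj
    by_contra hcon
    push Not at hcon
    rcases hEF j hj with h | ⟨g, hg, h⟩
    · rw [val_le_iff, hC, hA0, hw j hj _ (Finset.Subset.refl _)] at h
      omega
    · rw [val_le_iff, hC, hA0, hw j hj _ (Finset.erase_subset _ _),
        Finset.card_erase_of_mem hg] at h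
      omega
  have hcover : (univ : Finset (Fin 14)) = bundle C 0 ∪ (bundle C 1 ∪ bundle C 2) := by
    ext g
    simp only [bundle, mem_univ, mem_union, mem_filter, true_and, true_iff]
    generalize C g = c
    revert c
    decide
  have h0 : (bundle C 0).card = 5 := by rw [hC]; decide +kernel
  have hc : (univ : Finset (Fin 14)).card ≤ (bundle C 0).card +
      ((bundle C 1).card + (bundle C 2).card) := by
    rw [hcover]
    exact (Finset.card_union_le _ _).trans
      (Nat.add_le_add_left (Finset.card_union_le _ _) _)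
  have h1 := hsmall 1 (by decide)
  have h2 := hsmall 2 (by decide)
  rw [Finset.card_univ, Fintype.card_fin] at hc
  omega

/-- The implication `MXS → EEF1` fails: there are three agents with one common strictly positive
additive valuation over fourteen goods and an allocation that is MXS for every agent but not
EEF1 for one of them. -/
theorem result :
    (∃ (v : Fin 14 → ℝ) (A : Fin 14 → Fin 3), (∀ g, 0 < v g) ∧
      (∀ i, MXS v i A) ∧ ¬ EEF1 v 0 A) ∧
    ¬ (∀ (n : ℕ) (M : Type) [Fintype M] [DecidableEq M] (v : Fin n → M → ℝ),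
      (∀ i g, 0 ≤ v i g) → ∀ A : M → Fin n, (∀ i, MXS (v i) i A) → ∀ i, EEF1 (v i) i A) := by
  have hpos : ∀ g, 0 < v g := by
    intro g
    have : 0 < w g := by
      revert g
      decide
    unfold v
    exact_mod_cast this
  refine ⟨⟨v, A, hpos, mxs, not_eef1⟩, ?_⟩
  intro h
  exact not_eef1 (h 3 (Fin 14) (fun _ => v) (fun _ g => (hpos g).le) A mxs 0)

end Pool.Agent.Results.MP_a41a76_co.NotEpistemic
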